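import Pool.Agent.H211.CH.Stm

/-!
Cancellation of right factors of the same degree (`S_CAN`).
-/

set_option autoImplicit false

open Polynomial

namespace Pool.Agent.H331.CH211

universe u

variable {K : Type u} [Field K]

lemma geom_coeff [CharZero K] (B B₁ : K[X]) (a : ℕ) (hdeg : B₁.natDegree = B.natDegree)
    (hlead : B₁.leadingCoeff = B.leadingCoeff) (hB : B ≠ 0) (ha : 0 < a) :
    (∑ i ∈ Finset.range a, B ^ i * B₁ ^ (a - 1 - i)).coeff ((a - 1) * B.natDegree) ≠ 0 := by
  have hl : B.leadingCoeff ≠ 0 := leadingCoeff_ne_zero.2 hB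
  rw [finsetSum_coeff]
  have h1 : ∀ i ∈ Finset.range a, (B ^ i * B₁ ^ (a - 1 - i)).coeff ((a - 1) * B.natDegree) =
      B.leadingCoeff ^ (a - 1) := by
    intro i hi
    rw [Finset.mem_range] at hi
    have h2 : (B ^ i * B₁ ^ (a - 1 - i)).natDegree = (a - 1) * B.natDegree := by
      have hB1 : B₁ ≠ 0 := by
        rw [← leadingCoeff_ne_zero, hlead]
        exact hl
      rw [natDegree_mul (pow_ne_zero _ hB) (pow_ne_zero _ hB1), natDegree_pow, natDegree_pow, hdeg,
        ← add_mul]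
      congr 1
      omega
    have h3 : (B ^ i * B₁ ^ (a - 1 - i)).leadingCoeff = B.leadingCoeff ^ (a - 1) := by
      rw [leadingCoeff_mul, leadingCoeff_pow, leadingCoeff_pow, hlead, ← pow_add]
      congr 1
      omega
    rw [← h2]
    exact h3
  rw [Finset.sum_congr rfl h1, Finset.sum_const, Finset.card_range, nsmul_eq_mul]
  exact mul_ne_zero (Nat.cast_ne_zero.2 ha.ne') (pow_ne_zero _ hl)

/-- equal degrees and leading coefficients -/
lemma key [CharZero K] (A B A₁ B₁ : K[X]) (hB : 0 < B.natDegree) (hdeg : B₁.natDegree = B.natDegree)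
    (hlead : B₁.leadingCoeff = B.leadingCoeff) (hA : 0 < A.natDegree)
    (hA1 : A₁.natDegree = A.natDegree) (hl : A₁.leadingCoeff = A.leadingCoeff)
    (h : A.comp B = A₁.comp B₁) : (B - B₁).natDegree = 0 := by
  by_cases hne : B - B₁ = 0
  · rw [hne, natDegree_zero]
  have hB0 : B ≠ 0 := by
    intro h0
    rw [h0, natDegree_zero] at hB
    exact lt_irrefl _ hB
  have hA0 : A.leadingCoeff ≠ 0 := by
    rw [leadingCoeff_ne_zero]
    intro h0
    rw [h0, natDegree_zero] at hA
    exact lt_irrefl _ hA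
  have h1 : ∀ P Q : K[X], P.comp Q = P.eraseLead.comp Q + C P.leadingCoeff * Q ^ P.natDegree := by
    intro P Q
    conv_lhs => rw [← eraseLead_add_C_mul_X_pow P]
    rw [add_comp, mul_comp, C_comp, pow_comp, X_comp]
  rw [h1 A B, h1 A₁ B₁, hA1, hl] at h
  have h2 : C A.leadingCoeff * ((B - B₁) *
      ∑ i ∈ Finset.range A.natDegree, B ^ i * B₁ ^ (A.natDegree - 1 - i)) =
      A₁.eraseLead.comp B₁ - A.eraseLead.comp B := by
    have h3 := (Commute.all B B₁).mul_geom_sum₂ A.natDegree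
    rw [h3, mul_sub]
    linear_combination h
  have h4 : (A₁.eraseLead.comp B₁ - A.eraseLead.comp B).natDegree ≤
      (A.natDegree - 1) * B.natDegree := by
    refine (natDegree_sub_le _ _).trans (max_le ?_ ?_)
    · rw [natDegree_comp, hdeg]
      exact Nat.mul_le_mul_right _ ((eraseLead_natDegree_le _).trans (by rw [hA1]))
    · rw [natDegree_comp]
      exact Nat.mul_le_mul_right _ (eraseLead_natDegree_le _)
  have h5 := geom_coeff B B₁ A.natDegree hdeg hlead hB0 hA
  have h6 := le_natDegree_of_ne_zero h5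
  have h7 : (∑ i ∈ Finset.range A.natDegree, B ^ i * B₁ ^ (A.natDegree - 1 - i)) ≠ 0 := by
    intro h0
    rw [h0, coeff_zero] at h5
    exact h5 rfl
  rw [← h2, natDegree_C_mul hA0, natDegree_mul hne h7] at h4
  omega

/-- **Cancellation.** -/
theorem t_CAN [CharZero K] : Pool.Agent.H211.CH.S_CAN K := by
  intro A B A' B' hB hdeg hA h
  have hB'0 : B' ≠ 0 := by
    intro h0
    rw [h0, natDegree_zero] at hdeg
    omega
  have hB0 : B ≠ 0 := by
    intro h0
    rw [h0, natDegree_zero] at hB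
    exact lt_irrefl _ hB
  have hl : B.leadingCoeff ≠ 0 := leadingCoeff_ne_zero.2 hB0
  have hl' : B'.leadingCoeff ≠ 0 := leadingCoeff_ne_zero.2 hB'0
  obtain ⟨β, hβ⟩ : ∃ β : K, β = B.leadingCoeff / B'.leadingCoeff := ⟨_, rfl⟩
  have hβ0 : β ≠ 0 := by
    rw [hβ]
    exact div_ne_zero hl hl'
  have hA'deg : A'.natDegree = A.natDegree := by
    have h1 := congrArg natDegree h
    rw [natDegree_comp, natDegree_comp, ← hdeg] at h1
    exact (Nat.eq_of_mul_eq_mul_right hB h1).symm
  have e1 : (A'.comp (C β⁻¹ * X)).comp (C β * B') = A'.comp B' := by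
    rw [comp_assoc]
    congr 1
    rw [mul_comp, C_comp, X_comp, ← mul_assoc, ← C_mul, inv_mul_cancel₀ hβ0, C_1, one_mul]
  have hB1deg : (C β * B').natDegree = B.natDegree := by
    rw [natDegree_C_mul hβ0, hdeg]
  have hB1lead : (C β * B').leadingCoeff = B.leadingCoeff := by
    rw [leadingCoeff_mul, leadingCoeff_C, hβ, div_mul_cancel₀ _ hl']
  have hA1deg : (A'.comp (C β⁻¹ * X)).natDegree = A.natDegree := by
    rw [natDegree_comp, natDegree_C_mul_X _ (inv_ne_zero hβ0), mul_one, hA'deg]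
  have h' : A.comp B = (A'.comp (C β⁻¹ * X)).comp (C β * B') := by rw [e1, h]
  have hA1lead : (A'.comp (C β⁻¹ * X)).leadingCoeff = A.leadingCoeff := by
    have h1 := congrArg leadingCoeff h'
    rw [leadingCoeff_comp hB.ne', leadingCoeff_comp (by rw [hB1deg]; exact hB.ne'), hB1lead,
      hA1deg] at h1
    exact (mul_right_cancel₀ (pow_ne_zero _ hl) h1).symm
  have h2 := key A B (A'.comp (C β⁻¹ * X)) (C β * B') hB hB1deg hB1lead hA hA1deg hA1lead h'
  obtain ⟨c, hc⟩ : ∃ c : K, B - C β * B' = C c := ⟨_, eq_C_of_natDegree_eq_zero h2⟩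
  have hBL : B = (C β * X + C c).comp B' := by
    rw [add_comp, mul_comp, C_comp, C_comp, X_comp, ← hc]
    ring
  refine ⟨C β * X + C c, natDegree_linear hβ0, hBL, ?_⟩
  have h3 : (A.comp (C β * X + C c) - A').comp B' = 0 := by
    rw [sub_comp, comp_assoc, ← hBL, h, sub_self]
  rw [comp_eq_zero_iff] at h3
  rcases h3 with h3 | ⟨-, h3⟩
  · exact sub_eq_zero.1 h3
  · exfalso
    rw [h3, natDegree_C] at hdeg
    omega

end Pool.Agent.H331.CH211
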